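import Pool.Agent.H907F.Gen

set_option autoImplicit false

/-- Let `R` be a Noetherian local unique factorization domain of characteristic `p` (for example a
regular local ring) with a nonzero `R`-linear map `F_*R → R`. For each nonzero `c` and all large
`e`, the ideal of all `ψ(F^e_*c)`, `ψ : F^e_*R → R` linear, lies in no prime ideal of height at
most one. -/
theorem Pool.Agent.Results.MP_a0fd22_al.CodimensionOne.result
    (R : Type*) [CommRing R] [IsDomain R] [UniqueFactorizationMonoid R] [IsLocalRing R]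
    [IsNoetherianRing R] (p : ℕ) [CharP R p] (hp : p.Prime)
    (hφ : ∃ φ : R →+ R, (∀ r x : R, φ (r ^ p * x) = r * φ x) ∧ φ ≠ 0)
    (c : R) (hc : c ≠ 0) :
    ∃ e₀ : ℕ, ∀ e : ℕ, e₀ ≤ e → ∀ P : Ideal R, P.IsPrime → P.height ≤ 1 →
      ∃ ψ : R →+ R, (∀ r x : R, ψ (r ^ (p ^ e) * x) = r * ψ x) ∧ ψ c ∉ P := by
  classical
  obtain ⟨φ, hφ, hφ0⟩ := hφ
  obtain ⟨e0, h⟩ := H907F.codim_one p hp.two_le φ hφ hφ0 c hc
  refine ⟨e0, fun e he P hP hht => ?_⟩
  by_cases hbot : P = ⊥
  · obtain ⟨ψ, hψ, hψc⟩ := h e he 0 not_isUnit_zero (Or.inl rfl)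
    refine ⟨ψ, hψ, ?_⟩
    rw [hbot, Ideal.mem_bot]
    exact fun h0 => hψc (by rw [h0])
  · obtain ⟨f, hfP, hf⟩ := hP.exists_mem_prime_of_ne_bot hbot
    have hspan : P = Ideal.span {f} := by
      have hfprime : (Ideal.span {f}).IsPrime := (Ideal.span_singleton_prime hf.ne_zero).2 hf
      have hle : Ideal.span {f} ≤ P := (Ideal.span_singleton_le_iff_mem _).2 hfP
      by_contra hne
      have hlt : Ideal.span {f} < P := lt_of_le_of_ne hle (Ne.symm hne)
      have hht' : P.height ≤ ((1 : ℕ) : ℕ∞) := by simpa using hht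
      rw [Ideal.height_le_iff] at hht'
      have h1 := hht' _ hfprime hlt
      have h0 : (Ideal.span {f}).height = 0 := by
        have : (Ideal.span {f}).height < 1 := by simpa using h1
        exact Order.lt_one_iff.1 this
      rw [Ideal.height_eq_zero_iff_eq_bot, Ideal.span_singleton_eq_bot] at h0
      exact hf.ne_zero h0
    obtain ⟨ψ, hψ, hψc⟩ := h e he f hf.not_isUnit (Or.inr hf)
    refine ⟨ψ, hψ, ?_⟩
    rw [hspan, Ideal.mem_span_singleton]
    exact hψc
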