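import Pool.Agent.H907F.Conv4

set_option autoImplicit false

/-- Let `k` be a field of characteristic `p` with a nontrivial non-Archimedean absolute value and
`K_n(k)` the ring of convergent power series in `n` variables over `k` (`H907K.Conv n k`). If there
is a nonzero `K_n(k)`-linear map `F_*K_n(k) → K_n(k)` (in particular if `K_n(k)` is Frobenius
split), then `K_n(k)` is split F-regular. For `n ≥ 1` such a map exists if and only if there is a
nonzero continuous `k`-linear map `k^{1/p} → k`. -/
theorem Pool.Agent.Results.MP_a0fd22_al.ConvergentPowerSeries.result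
    (k : Type*) [NontriviallyNormedField k] [IsUltrametricDist k] (p : ℕ) [CharP k p]
    (hp : p.Prime) (n : ℕ) :
    (H907K.HasNonzeroMap (H907K.Conv n k) p → H907K.SplitFRegular (H907K.Conv n k) p) ∧
    (1 ≤ n → (H907K.HasNonzeroMap (H907K.Conv n k) p ↔ H907K.HasContinuousMap k p)) := by
  have hpf : Fact p.Prime := ⟨hp⟩
  refine ⟨?_, fun hn => H907K.exists_iff p hn⟩
  rintro ⟨φ, hφ, hφ0⟩ c hc
  exact H907K.split_of_nonzero p φ hφ hφ0 c hc
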