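import Pool.Agent.H907F.Proj2

set_option autoImplicit false

/-- Let `R` be a regular local ring of characteristic `p` and Krull dimension two such that `F_*R`
is a countably generated `R`-module. If there is a nonzero `R`-linear map `F_*R → R` (in particular
if `R` is Frobenius split), then `F_*R` is a projective `R`-module (the canonical map from the free
module on the set `F_*R` onto `F_*R` has an `R`-linear section `s`), and `R` is split F-regular. -/
theorem Pool.Agent.Results.MP_a0fd22_al.ProjectiveFrobenius.result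
    (R : Type*) [CommRing R] [IsLocalRing R] [IsNoetherianRing R] (p : ℕ) [CharP R p]
    (hp : p.Prime)
    (hreg : ∃ s : Finset R, Ideal.span (s : Set R) = IsLocalRing.maximalIdeal R ∧ s.card = 2)
    (hdim : ringKrullDim R = 2)
    (hcount : ∃ g : ℕ → R, ∀ r : R, ∃ (n : ℕ) (a : ℕ → R),
      r = ∑ i ∈ Finset.range n, a i ^ p * g i)
    (hφ : ∃ φ : R →+ R, (∀ r x : R, φ (r ^ p * x) = r * φ x) ∧ φ ≠ 0) :
    (∃ s : R →+ (R →₀ R), (∀ a x : R, s (a ^ p * x) = a • s x) ∧
      ∀ x : R, x = (s x).sum fun b a => a ^ p * b) ∧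
    (∀ c : R, c ≠ 0 → ∃ e : ℕ, 1 ≤ e ∧
      ∃ ψ : R →+ R, (∀ r x : R, ψ (r ^ (p ^ e) * x) = r * ψ x) ∧ ψ c = 1) := by
  classical
  obtain ⟨s, hs, hcard⟩ := hreg
  obtain ⟨x, y, _, rfl⟩ := Finset.card_eq_two.1 hcard
  have hm : IsLocalRing.maximalIdeal R = Ideal.span {x, y} := by
    rw [← hs]; simp
  have hdom : IsDomain R := H907F.isDomain_of hm hdim
  have hpf : Fact p.Prime := ⟨hp⟩
  obtain ⟨g, hg⟩ := hcount
  obtain ⟨φ, hφ, hφ0⟩ := hφ
  exact ⟨H907F.proj_dim_two hm hdim φ hφ hφ0 g hg,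
    fun c hc => H907F.main_dim_two hm hdim φ hφ hφ0 g hg c hc⟩
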