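import Pool.Agent.H907F.Split

set_option autoImplicit false

/-- Let `R` be a Noetherian local unique factorization domain of characteristic `p` (for example a
regular local ring of any dimension) with a nonzero `R`-linear map `F_*R → R`. Let `Q` be the set of
all `c` such that no `R`-linear map `F^e_*R → R`, `e ≥ 1`, sends `F^e_*c` to `1`. Then `Q` is an
ideal which every `R`-linear map `F^e_*R → R` maps into itself, and either `Q = R`, or `Q = 0`
(that is, `R` is split F-regular), or `Q` is a prime ideal of height at least two. -/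
theorem Pool.Agent.Results.MP_a0fd22_al.SplittingPrime.result
    (R : Type*) [CommRing R] [IsDomain R] [UniqueFactorizationMonoid R] [IsLocalRing R]
    [IsNoetherianRing R] (p : ℕ) [CharP R p] (hp : p.Prime)
    (hφ : ∃ φ : R →+ R, (∀ r x : R, φ (r ^ p * x) = r * φ x) ∧ φ ≠ 0) :
    ∃ Q : Ideal R,
      (∀ c : R, c ∈ Q ↔ ¬ ∃ e : ℕ, 1 ≤ e ∧
        ∃ ψ : R →+ R, (∀ r x : R, ψ (r ^ (p ^ e) * x) = r * ψ x) ∧ ψ c = 1) ∧
      (∀ (e : ℕ) (ψ : R →+ R), (∀ r x : R, ψ (r ^ (p ^ e) * x) = r * ψ x) →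
        ∀ c ∈ Q, ψ c ∈ Q) ∧
      (Q = ⊤ ∨ Q = ⊥ ∨ (Q.IsPrime ∧ 2 ≤ Q.height)) := by
  obtain ⟨φ, hφ, hφ0⟩ := hφ
  refine ⟨H907F.QI R p, fun c => ?_, fun e ψ hψ c hc => H907F.QI_compat p e ψ hψ c hc,
    H907F.splitting_prime p hp.two_le φ hφ hφ0⟩
  rw [H907F.mem_QI]
  constructor
  · rintro h ⟨e, he, ψ, hψ, h1⟩
    exact h e he ψ hψ (by rw [h1]; exact isUnit_one)
  · rintro h e he ψ hψ ⟨u, hu⟩
    refine h ⟨e, he, (AddMonoidHom.mulLeft (↑u⁻¹ : R)).comp ψ, fun r x => ?_, ?_⟩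
    · simp only [AddMonoidHom.comp_apply, AddMonoidHom.coe_mulLeft]
      rw [hψ]; ring
    · simp only [AddMonoidHom.comp_apply, AddMonoidHom.coe_mulLeft]
      rw [← hu, Units.inv_mul]
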